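import Mathlib
import Pool.Graph.R_seed8.Helper304.Square
import Pool.Agent.H39.AA.Main
import Pool.Agent.H39.AA.Doob
import Pool.Agent.H39.AA.Cube

set_option autoImplicit false

namespace Pool.Agent.Results.MP_aa1cf3_an.AllMultiplicities

open MeasureTheory Filter Topology

/-- Lebesgue measure on the unit square `I² = [0,1] × [0,1]`, as a measure on `ℝ × ℝ`. -/
noncomputable def squareMeasure : Measure (ℝ × ℝ) :=
  volume.restrict (Set.Icc 0 1 ×ˢ Set.Icc 0 1)

/-- A double orthonormal system on `I²`: a family `φ_{ik}` in `L²(I²)`, indexed by pairs of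
natural numbers (the index `i = 0, 1, 2, …` stands for the positive integer `i + 1`), with
`∫ φ_{ik} φ_{jl} = 1` if `(i,k) = (j,l)` and `0` otherwise. -/
structure IsDoubleONS (φ : ℕ → ℕ → ℝ × ℝ → ℝ) : Prop where
  memL2 : ∀ i k, MemLp (φ i k) 2 squareMeasure
  orthonormal : ∀ i k j l, ∫ p, φ i k p * φ j l p ∂squareMeasure = if (i, k) = (j, l) then 1 else 0

/-- Property (i): the system is uniformly bounded. -/
def UniformlyBounded (φ : ℕ → ℕ → ℝ × ℝ → ℝ) : Prop :=
  ∃ M : ℝ, ∀ i k, ∀ᵐ p ∂squareMeasure, |φ i k p| ≤ M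

/-- Property (ii): the system is complete in `L²(I²)`: a function of `L²(I²)` that is orthogonal
to all `φ_{ik}` vanishes almost everywhere. -/
def CompleteL2 (φ : ℕ → ℕ → ℝ × ℝ → ℝ) : Prop :=
  ∀ f : ℝ × ℝ → ℝ, MemLp f 2 squareMeasure →
    (∀ i k, ∫ p, f p * φ i k p ∂squareMeasure = 0) → f =ᵐ[squareMeasure] 0

/-- The rectangular partial sum `S_{mn}` of a double series with terms `t i k`. -/
noncomputable def rectSum (t : ℕ → ℕ → ℝ) (m n : ℕ) : ℝ :=
  ∑ i ∈ Finset.range m, ∑ k ∈ Finset.range n, t i k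

/-- Convergence of the double series `∑ t_{ik}` in Pringsheim's sense: `S_{mn}` has a finite limit
as `min (m, n) → ∞`. -/
def PringsheimConverges (t : ℕ → ℕ → ℝ) : Prop :=
  ∃ s : ℝ, ∀ ε : ℝ, 0 < ε → ∃ N : ℕ, ∀ m n : ℕ, N ≤ min m n → |rectSum t m n - s| < ε

/-- Regular convergence of the double series `∑ t_{ik}`: convergence in Pringsheim's sense together
with convergence of every row series and every column series. -/
def RegularlyConverges (t : ℕ → ℕ → ℝ) : Prop :=
  PringsheimConverges t ∧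
  (∀ i, ∃ s : ℝ, Tendsto (fun n => ∑ k ∈ Finset.range n, t i k) atTop (𝓝 s)) ∧
  (∀ k, ∃ s : ℝ, Tendsto (fun m => ∑ i ∈ Finset.range m, t i k) atTop (𝓝 s))

/-- Property (iii) for regular convergence: for every square-summable array of coefficients the
double series converges regularly almost everywhere on `I²`. -/
def RegularConvergenceSystem (φ : ℕ → ℕ → ℝ × ℝ → ℝ) : Prop :=
  ∀ a : ℕ → ℕ → ℝ, (Summable fun q : ℕ × ℕ => a q.1 q.2 ^ 2) →
    ∀ᵐ p ∂squareMeasure, RegularlyConverges fun i k => a i k * φ i k p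

/-- The partial sum of a `d`-fold series with terms `t p`, `p ∈ ℕ^d`, in which the coordinates in
`T` run over `p i < m i` and the coordinates outside `T` are fixed, `p i = q i`. -/
noncomputable def faceSum {d : ℕ} (t : (Fin d → ℕ) → ℝ) (T : Finset (Fin d)) (q m : Fin d → ℕ) : ℝ :=
  ∑ p ∈ Fintype.piFinset (fun i => if i ∈ T then Finset.range (m i) else {q i}), t p

/-- Regular convergence of a `d`-fold series: for every set `T` of coordinates and every choice `q`
of fixed values of the others, the subseries over the coordinates in `T` converges in Pringsheim's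
sense: its partial sums have a finite limit when all `m i` tend to infinity. The case of all
coordinates (`T = univ`) is the convergence of the `d`-fold series in Pringsheim's sense. -/
def MultipleRegularlyConverges {d : ℕ} (t : (Fin d → ℕ) → ℝ) : Prop :=
  ∀ (T : Finset (Fin d)) (q : Fin d → ℕ), ∃ s : ℝ,
    Tendsto (fun m : Fin d → ℕ => faceSum t T q m) atTop (𝓝 s)

/-- Lebesgue measure on the unit cube `I^D = [0,1]^D`, as a measure on `Fin D → ℝ`. -/
noncomputable def cubeMeasure (D : ℕ) : Measure (Fin D → ℝ) := volume.restrict (Set.Icc 0 1)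

/-- `ψ` is an orthonormal sequence in `L²(I^D)`. -/
structure IsONS {D : ℕ} (ψ : ℕ → (Fin D → ℝ) → ℝ) : Prop where
  memL2 : ∀ n, MemLp (ψ n) 2 (cubeMeasure D)
  orthonormal : ∀ n n', ∫ x, ψ n x * ψ n' x ∂(cubeMeasure D) = if n = n' then 1 else 0

/-- `ψ` is complete in `L²(I^D)`: a function of `L²(I^D)` that is orthogonal to all `ψ n` vanishes
almost everywhere. -/
def IsCompleteL2 {D : ℕ} (ψ : ℕ → (Fin D → ℝ) → ℝ) : Prop :=
  ∀ f : (Fin D → ℝ) → ℝ, MemLp f 2 (cubeMeasure D) →
    (∀ n, ∫ x, f x * ψ n x ∂(cubeMeasure D) = 0) → f =ᵐ[cubeMeasure D] 0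

lemma sum_univ_two (t : (Fin 2 → ℕ) → ℝ) (q : Fin 2 → ℕ) (m n : ℕ) :
    faceSum t Finset.univ q ![m, n] = rectSum (fun i k => t ![i, k]) m n := by
  unfold faceSum rectSum
  rw [← Finset.sum_product']
  refine Finset.sum_nbij' (fun p => (p 0, p 1)) (fun r => ![r.1, r.2]) ?_ ?_ ?_ ?_ ?_
  · intro p hp
    rw [Fintype.mem_piFinset] at hp
    have h0 := hp 0
    have h1 := hp 1
    simp at h0 h1
    simp [h0, h1]
  · intro r hr
    rw [Finset.mem_product, Finset.mem_range, Finset.mem_range] at hr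
    rw [Fintype.mem_piFinset]
    intro i
    fin_cases i
    · simpa using hr.1
    · simpa using hr.2
  · intro p _
    funext i
    fin_cases i <;> rfl
  · intro r _
    rfl
  · intro p _
    congr 1
    funext i
    fin_cases i <;> rfl

lemma sum_row (t : (Fin 2 → ℕ) → ℝ) (i n : ℕ) :
    faceSum t {1} ![i, 0] (fun _ => n) = ∑ k ∈ Finset.range n, t ![i, k] := by
  unfold faceSum
  refine Finset.sum_nbij' (fun p => p 1) (fun r => ![i, r]) ?_ ?_ ?_ ?_ ?_
  · intro p hp
    rw [Fintype.mem_piFinset] at hp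
    have h1 := hp 1
    simpa using h1
  · intro r hr
    rw [Fintype.mem_piFinset]
    intro j
    fin_cases j
    · simp
    · simpa using hr
  · intro p hp
    rw [Fintype.mem_piFinset] at hp
    have h0 := hp 0
    simp at h0
    funext j
    fin_cases j
    · simp [h0]
    · rfl
  · intro r _
    rfl
  · intro p hp
    rw [Fintype.mem_piFinset] at hp
    have h0 := hp 0
    simp at h0
    congr 1
    funext j
    fin_cases j
    · simp [h0]
    · rfl

lemma sum_col (t : (Fin 2 → ℕ) → ℝ) (k n : ℕ) :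
    faceSum t {0} ![0, k] (fun _ => n) = ∑ i ∈ Finset.range n, t ![i, k] := by
  unfold faceSum
  refine Finset.sum_nbij' (fun p => p 0) (fun r => ![r, k]) ?_ ?_ ?_ ?_ ?_
  · intro p hp
    rw [Fintype.mem_piFinset] at hp
    have h1 := hp 0
    simpa using h1
  · intro r hr
    rw [Fintype.mem_piFinset]
    intro j
    fin_cases j
    · simpa using hr
    · simp
  · intro p hp
    rw [Fintype.mem_piFinset] at hp
    have h0 := hp 1
    simp at h0
    funext j
    fin_cases j
    · rfl
    · simp [h0]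
  · intro r _
    rfl
  · intro p hp
    rw [Fintype.mem_piFinset] at hp
    have h0 := hp 1
    simp at h0
    congr 1
    funext j
    fin_cases j
    · rfl
    · simp [h0]

lemma regular_two (t : (Fin 2 → ℕ) → ℝ) (h : MultipleRegularlyConverges t) :
    RegularlyConverges fun i k => t ![i, k] := by
  have hconst : Tendsto (fun n : ℕ => (fun _ : Fin 2 => n)) atTop atTop := by
    rw [tendsto_atTop]
    intro b
    filter_upwards [eventually_ge_atTop (b 0 + b 1)] with n hn
    intro i
    fin_cases i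
    · show b 0 ≤ n
      omega
    · show b 1 ≤ n
      omega
  refine ⟨?_, fun i => ?_, fun k => ?_⟩
  · obtain ⟨s, hs⟩ := h Finset.univ 0
    refine ⟨s, fun ε hε => ?_⟩
    rw [Metric.tendsto_atTop] at hs
    obtain ⟨N, hN⟩ := hs ε hε
    refine ⟨N 0 + N 1, fun m n hmn => ?_⟩
    have h4 := hN ![m, n] (by
      intro i
      fin_cases i
      · show N 0 ≤ m
        omega
      · show N 1 ≤ n
        omega)
    rwa [Real.dist_eq, sum_univ_two] at h4
  · obtain ⟨s, hs⟩ := h {1} ![i, 0]
    refine ⟨s, (hs.comp hconst).congr fun n => ?_⟩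
    exact sum_row t i n
  · obtain ⟨s, hs⟩ := h {0} ![0, k]
    refine ⟨s, (hs.comp hconst).congr fun n => ?_⟩
    exact sum_col t k n

/-- The maximal inequality for the rectangular partial sums of the double series. -/
def RectMaximalInequality (φ : ℕ → ℕ → ℝ × ℝ → ℝ) : Prop :=
  ∀ a : ℕ → ℕ → ℝ, (Summable fun q : ℕ × ℕ => a q.1 q.2 ^ 2) →
    ∫⁻ x, ⨆ (m : ℕ) (n : ℕ), ENNReal.ofReal (rectSum (fun i k => a i k * φ i k x) m n ^ 2)
      ∂squareMeasure ≤ ENNReal.ofReal (7 * 2000 ^ 2 * ∑' q : ℕ × ℕ, a q.1 q.2 ^ 2)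

/-- (1) There is a double orthonormal system `φ` on the unit square which is uniformly bounded,
complete in `L²(I²)`, and such that every double series with square-summable coefficients converges
regularly (in particular, in Pringsheim's sense) almost everywhere; moreover, for every
multiplicity `d ≥ 1` the same functions can be indexed by `ℕ^d` (by a bijection `e`) so that every
`d`-fold series with square-summable coefficients converges regularly almost everywhere.

(2) On every cube `I^D` there is a complete orthonormal sequence `ψ` bounded by `5` such that for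
every multiplicity `d ≥ 1` (for instance `d = D`) some indexing of `ψ` by `ℕ^d` makes every `d`-fold
series with square-summable coefficients converge regularly almost everywhere.

In all these cases the maximal function of the partial sums `S_m` of the `d`-fold series satisfies
`∫ sup_m |S_m|² ≤ 7 · 2000^d · ∑ a_p²`. -/
theorem result : (∃ φ : ℕ → ℕ → ℝ × ℝ → ℝ,
    (IsDoubleONS φ ∧ UniformlyBounded φ ∧ CompleteL2 φ ∧ RegularConvergenceSystem φ) ∧
    (∀ i k x, |φ i k x| ≤ 5) ∧ RectMaximalInequality φ ∧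
    ∀ d : ℕ, 1 ≤ d → ∃ e : (Fin d → ℕ) ≃ ℕ × ℕ, ∀ a : (Fin d → ℕ) → ℝ,
      (Summable fun p => a p ^ 2) →
        (∀ᵐ x ∂squareMeasure,
          MultipleRegularlyConverges fun p => a p * φ (e p).1 (e p).2 x) ∧
        ∫⁻ x, ⨆ m : Fin d → ℕ, ENNReal.ofReal
          (faceSum (fun p => a p * φ (e p).1 (e p).2 x) Finset.univ 0 m ^ 2) ∂squareMeasure ≤
            ENNReal.ofReal (7 * 2000 ^ d * ∑' p, a p ^ 2)) ∧
    ∀ D : ℕ, 1 ≤ D → ∃ ψ : ℕ → (Fin D → ℝ) → ℝ,
      IsONS ψ ∧ IsCompleteL2 ψ ∧ (∀ n x, |ψ n x| ≤ 5) ∧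
      ∀ d : ℕ, 1 ≤ d → ∃ e : (Fin d → ℕ) ≃ ℕ, ∀ a : (Fin d → ℕ) → ℝ,
        (Summable fun p => a p ^ 2) →
          (∀ᵐ x ∂(cubeMeasure D), MultipleRegularlyConverges fun p => a p * ψ (e p) x) ∧
          ∫⁻ x, ⨆ m : Fin d → ℕ, ENNReal.ofReal
            (faceSum (fun p => a p * ψ (e p) x) Finset.univ 0 m ^ 2) ∂(cubeMeasure D) ≤
              ENNReal.ofReal (7 * 2000 ^ d * ∑' p, a p ^ 2) := by
  constructor
  · obtain ⟨ψ, hmeas, hbd, horth, hcomp, hconv⟩ :=
      Pool.Agent.H39.AA.exists_sequence_max Pool.Agent.Helper304.Square.dig_sign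
        Pool.Agent.Helper304.Square.dig_gen
    have hμ : squareMeasure = Pool.Agent.Helper304.Square.μI := rfl
    obtain ⟨e2, he2⟩ := hconv 2 (by norm_num)
    have hvec : ∀ i k j l : ℕ, (![i, k] : Fin 2 → ℕ) = ![j, l] ↔ (i, k) = (j, l) := by
      intro i k j l
      constructor
      · intro h
        have h0 := congrFun h 0
        have h1 := congrFun h 1
        simp at h0 h1
        rw [h0, h1]
      · rintro ⟨⟩
        rfl
    have hsum : ∀ a : ℕ → ℕ → ℝ, (Summable fun q : ℕ × ℕ => a q.1 q.2 ^ 2) →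
        Summable fun p : Fin 2 → ℕ => (fun p : Fin 2 → ℕ => a (p 0) (p 1)) p ^ 2 := fun a ha =>
      ha.comp_injective (i := fun p : Fin 2 → ℕ => (p 0, p 1)) (fun p q h => by
        simp only [Prod.mk.injEq] at h
        funext i
        fin_cases i
        · exact h.1
        · exact h.2)
    refine ⟨fun i k => ψ (e2 ![i, k]), ⟨⟨fun i k => ?_, fun i k j l => ?_⟩, ⟨5, fun i k => ?_⟩,
      fun f hf h => ?_, fun a ha => ?_⟩, fun i k x => hbd _ x, fun a ha => ?_, fun d hd => ?_⟩
    · rw [hμ]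
      exact MemLp.of_bound (hmeas _).aestronglyMeasurable 5 (ae_of_all _ fun p => by
        rw [Real.norm_eq_abs]; exact hbd _ p)
    · rw [hμ, horth]
      simp only [EmbeddingLike.apply_eq_iff_eq, hvec]
    · exact ae_of_all _ fun p => hbd _ p
    · refine hcomp f hf fun n => ?_
      have := h ((e2.symm n) 0) ((e2.symm n) 1)
      have h2 : (![(e2.symm n) 0, (e2.symm n) 1] : Fin 2 → ℕ) = e2.symm n := by
        funext i
        fin_cases i <;> rfl
      simp only [h2, Equiv.apply_symm_apply] at this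
      exact this
    · filter_upwards [(he2 _ (hsum a ha)).1] with x hx
      exact regular_two (fun p => a (p 0) (p 1) * ψ (e2 p) x) hx
    · have h1 := (he2 _ (hsum a ha)).2
      have h2 : ∑' p : Fin 2 → ℕ, (a (p 0) (p 1)) ^ 2 = ∑' q : ℕ × ℕ, a q.1 q.2 ^ 2 :=
        (finTwoArrowEquiv ℕ).tsum_eq (fun q : ℕ × ℕ => a q.1 q.2 ^ 2)
      rw [h2] at h1
      refine le_trans (lintegral_mono fun x => ?_) h1
      refine iSup_le fun m => iSup_le fun n => ?_
      have h3 := sum_univ_two (fun p => a (p 0) (p 1) * ψ (e2 p) x) 0 m n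
      have h4 : rectSum (fun i k => a i k * ψ (e2 ![i, k]) x) m n =
          faceSum (fun p => a (p 0) (p 1) * ψ (e2 p) x) Finset.univ 0 ![m, n] := h3.symm
      rw [h4]
      exact le_iSup (fun m : Fin 2 → ℕ => ENNReal.ofReal
        (faceSum (fun p => a (p 0) (p 1) * ψ (e2 p) x) Finset.univ 0 m ^ 2)) ![m, n]
    · obtain ⟨e, he⟩ := hconv d hd
      let g : ℕ × ℕ ≃ ℕ := (finTwoArrowEquiv ℕ).symm.trans e2
      refine ⟨e.trans g.symm, fun a ha => ?_⟩
      have h1 : ∀ (p : Fin d → ℕ) (x : ℝ × ℝ),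
          ψ (e2 ![((e.trans g.symm) p).1, ((e.trans g.symm) p).2]) x = ψ (e p) x := by
        intro p x
        have : e2 ![((e.trans g.symm) p).1, ((e.trans g.symm) p).2] = g (g.symm (e p)) := rfl
        rw [this, Equiv.apply_symm_apply]
      simp only [h1]
      exact he a ha
  · intro D hD
    obtain ⟨ψ, hmeas, hbd, horth, hcomp, hconv⟩ :=
      Pool.Agent.H39.AA.exists_sequence_max (Pool.Agent.H39.AA.Cube.dg_sign hD)
        (Pool.Agent.H39.AA.Cube.dg_gen hD)
    have hμ : cubeMeasure D = Pool.Agent.H39.AA.Cube.μC D := rfl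
    refine ⟨ψ, ⟨fun n => ?_, horth⟩, hcomp, hbd, hconv⟩
    rw [hμ]
    exact MemLp.of_bound (hmeas _).aestronglyMeasurable 5 (ae_of_all _ fun p => by
      rw [Real.norm_eq_abs]; exact hbd _ p)

end Pool.Agent.Results.MP_aa1cf3_an.AllMultiplicities
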